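import Pool.Agent.Helper83.TI2.Main
import Pool.Agent.Helper23.TI2.Count

/-!
# The conjectured bound for the diameter holds exactly for almost all score vectors

The conjectured bound `(n-1)²/4` (`n` odd), `n(n-2)/4` (`n` even) for the diameter of `G(R)` holds
for every score vector `R` such that the sum of the deviations `|R v - (n-1)/2|` is at least
`5 n^(15/8)`, that is for all but a proportion `n^(-n/20)` of all score vectors (`n` large).
Reason: two tournaments with score vector `R` agree on at least as many pairs as the deviation,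
and agreement on `a` pairs saves `a²/n²` reversals (`pair_bound`).
-/

namespace Pool.Agent.Results.MP_2d701a_co.AlmostAllScoreVectors

/-- `T` is a tournament on `n` labelled vertices: `T u v` says that the arc between `u` and `v`
goes from `u` to `v`. -/
def IsTournament {n : ℕ} (T : Fin n → Fin n → Prop) : Prop :=
  (∀ u, ¬ T u u) ∧ ∀ u v, u ≠ v → (T u v ↔ ¬ T v u)

/-- The outdegree of the vertex `u`. -/
noncomputable def outdegree {n : ℕ} (T : Fin n → Fin n → Prop) (u : Fin n) : ℕ :=
  Nat.card {v // T u v}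

/-- The set `T(R)` of all labelled tournaments with score vector `R`. -/
abbrev Tournaments {n : ℕ} (R : Fin n → ℕ) : Type :=
  {T : Fin n → Fin n → Prop // IsTournament T ∧ ∀ u, outdegree T u = R u}

/-- `T'` arises from `T` by reversing the three arcs `a → b`, `b → c`, `c → a` of one directed
3-cycle of `T`: pairs inside `{a, b, c}` are reversed, all other pairs are kept. -/
def ReversesTriangle {n : ℕ} (T T' : Fin n → Fin n → Prop) : Prop :=
  ∃ a b c, T a b ∧ T b c ∧ T c a ∧ ∀ u v,
    ((u = a ∨ u = b ∨ u = c) ∧ (v = a ∨ v = b ∨ v = c) → (T' u v ↔ T v u)) ∧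
    (¬ ((u = a ∨ u = b ∨ u = c) ∧ (v = a ∨ v = b ∨ v = c)) → (T' u v ↔ T u v))

theorem ReversesTriangle.symm {n : ℕ} {T T' : Fin n → Fin n → Prop}
    (h : ReversesTriangle T T') : ReversesTriangle T' T := by
  obtain ⟨a, b, c, hab, hbc, hca, h⟩ := h
  refine ⟨a, c, b, ?_, ?_, ?_, ?_⟩
  · exact ((h a c).1 ⟨by simp, by simp⟩).2 hca
  · exact ((h c b).1 ⟨by simp, by simp⟩).2 hbc
  · exact ((h b a).1 ⟨by simp, by simp⟩).2 hab
  · intro u v
    constructor
    · rintro ⟨hu, hv⟩
      have hu' : u = a ∨ u = b ∨ u = c := by tauto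
      have hv' : v = a ∨ v = b ∨ v = c := by tauto
      exact ((h v u).1 ⟨hv', hu'⟩).symm
    · intro hn
      have hn' : ¬ ((u = a ∨ u = b ∨ u = c) ∧ (v = a ∨ v = b ∨ v = c)) := by tauto
      exact ((h u v).2 hn').symm

theorem ReversesTriangle.irrefl {n : ℕ} {T : Fin n → Fin n → Prop} (hT : IsTournament T) :
    ¬ ReversesTriangle T T := by
  rintro ⟨a, b, c, hab, hbc, hca, h⟩
  have h1 := ((h a b).1 ⟨by simp, by simp⟩).1 hab
  have hne : a ≠ b := by
    rintro rfl
    exact hT.1 _ hab
  exact (hT.2 a b hne).1 hab h1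

/-- The interchange graph `G(R)`: its vertices are the tournaments with score vector `R`, and two
of them are adjacent when one arises from the other by reversing the arcs of a directed
3-cycle. -/
def interchangeGraph {n : ℕ} (R : Fin n → ℕ) : SimpleGraph (Tournaments R) where
  Adj T T' := ReversesTriangle T.1 T'.1
  symm := ⟨fun _ _ h => h.symm⟩
  loopless := ⟨fun T => ReversesTriangle.irrefl T.2.1⟩

open Pool.Agent.Helper40.TI Classical

theorem outdegree_rev_aux {n : ℕ} {T : Fin n → Fin n → Prop} (hT : IsTournament T)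
    {a b c : Fin n} (hab : T a b) (hbc : T b c) (hca : T c a) :
    outdegree (rev3 T a b c) a = outdegree T a := by
  have hT' : IsTour T := hT
  have nab : a ≠ b := hT'.ne hab
  have nbc : b ≠ c := hT'.ne hbc
  have nca : c ≠ a := hT'.ne hca
  have hba : ¬ T b a := hT'.not_symm hab
  have hac : ¬ T a c := hT'.not_symm hca
  unfold outdegree
  apply Nat.card_congr
  refine (Equiv.swap b c).subtypeEquiv ?_
  intro v
  by_cases h1 : v = b
  · subst h1
    rw [Equiv.swap_apply_left]
    unfold rev3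
    simp [hba, hac]
  · by_cases h2 : v = c
    · subst h2
      rw [Equiv.swap_apply_right]
      unfold rev3
      simp [hca, hab]
    · rw [Equiv.swap_apply_of_ne_of_ne h1 h2]
      unfold rev3
      by_cases h3 : v = a
      · subst h3; simp
      · simp [h1, h2, h3]

theorem rev3_rotate {n : ℕ} (T : Fin n → Fin n → Prop) (a b c : Fin n) :
    rev3 T a b c = rev3 T b c a := by
  funext u v
  unfold rev3
  have h1 : (u = a ∨ u = b ∨ u = c) ↔ (u = b ∨ u = c ∨ u = a) := by tauto
  have h2 : (v = a ∨ v = b ∨ v = c) ↔ (v = b ∨ v = c ∨ v = a) := by tauto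
  by_cases h : (u = a ∨ u = b ∨ u = c) ∧ (v = a ∨ v = b ∨ v = c)
  · rw [if_pos h, if_pos ⟨h1.1 h.1, h2.1 h.2⟩]
  · rw [if_neg h, if_neg (fun h' => h ⟨h1.2 h'.1, h2.2 h'.2⟩)]

theorem outdegree_rev {n : ℕ} {T : Fin n → Fin n → Prop} (hT : IsTournament T)
    {a b c : Fin n} (hab : T a b) (hbc : T b c) (hca : T c a) (u : Fin n) :
    outdegree (rev3 T a b c) u = outdegree T u := by
  by_cases h1 : u = a
  · rw [h1]; exact outdegree_rev_aux hT hab hbc hca
  · by_cases h2 : u = b
    · rw [h2, rev3_rotate]; exact outdegree_rev_aux hT hbc hca hab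
    · by_cases h3 : u = c
      · rw [h3, rev3_rotate, rev3_rotate]; exact outdegree_rev_aux hT hca hab hbc
      · unfold outdegree
        apply Nat.card_congr
        refine (Equiv.refl _).subtypeEquiv ?_
        intro v
        unfold rev3
        simp [h1, h2, h3]

theorem walk_of_steps {n : ℕ} {R : Fin n → ℕ} {k : ℕ} {T T' : Fin n → Fin n → Prop}
    (h : Steps k T T') : ∀ (h1 : IsTournament T ∧ ∀ u, outdegree T u = R u)
      (h2 : IsTournament T' ∧ ∀ u, outdegree T' u = R u),
      ∃ w : (interchangeGraph R).Walk ⟨T, h1⟩ ⟨T', h2⟩, w.length = k := by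
  induction h with
  | zero T =>
      intro h1 h2
      exact ⟨SimpleGraph.Walk.nil, rfl⟩
  | @succ k T T1 T2 hr hs ih =>
      intro h1 h2
      obtain ⟨a, b, c, hab, hbc, hca, rfl⟩ := hr
      have hT1 : IsTour T := h1.1
      have h3 : IsTournament (rev3 T a b c) ∧ ∀ u, outdegree (rev3 T a b c) u = R u :=
        ⟨hT1.rev3 a b c, fun u => (outdegree_rev h1.1 hab hbc hca u).trans (h1.2 u)⟩
      obtain ⟨w, hw⟩ := ih h3 h2
      have hadj : (interchangeGraph R).Adj ⟨T, h1⟩ ⟨rev3 T a b c, h3⟩ := by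
        refine ⟨a, b, c, hab, hbc, hca, ?_⟩
        intro u v
        constructor
        · intro h
          have : rev3 T a b c u v = T v u := by
            unfold rev3; rw [if_pos h]
          exact iff_of_eq this
        · intro h
          have : rev3 T a b c u v = T u v := by
            unfold rev3; rw [if_neg h]
          exact iff_of_eq this
      refine ⟨SimpleGraph.Walk.cons hadj w, ?_⟩
      rw [SimpleGraph.Walk.length_cons, hw]

theorem outdegree_eq_sum {n : ℕ} (T : Fin n → Fin n → Prop) (u : Fin n) :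
    (outdegree T u : ℤ) = ∑ v, if T u v then 1 else 0 := by
  unfold outdegree
  rw [Nat.card_eq_fintype_card, Fintype.card_subtype]
  simp

theorem row_zero {n : ℕ} {T T' : Fin n → Fin n → Prop} (hT : IsTournament T)
    (hT' : IsTournament T') (h : ∀ u, outdegree T u = outdegree T' u) (v : Fin n) :
    ∑ u, dif T T' v u = 0 := by
  have h1 : ∀ u, dif T T' v u = (if T v u then 1 else 0) - (if T' v u then 1 else 0) := by
    intro u
    unfold dif
    by_cases huv : v = u
    · subst huv
      simp [hT.1 v, hT'.1 v]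
    · have e1 := hT.2 v u huv
      have e2 := hT'.2 v u huv
      by_cases a1 : T v u <;> by_cases a2 : T' v u
      · have b1 : ¬ T u v := e1.1 a1
        have b2 : ¬ T' u v := e2.1 a2
        simp [a1, a2, b1, b2]
      · have b1 : ¬ T u v := e1.1 a1
        have b2 : T' u v := by
          by_contra hc; exact a2 (e2.2 hc)
        simp [a1, a2, b1, b2]
      · have b1 : T u v := by
          by_contra hc; exact a1 (e1.2 hc)
        have b2 : ¬ T' u v := e2.1 a2
        simp [a1, a2, b1, b2]
      · have b1 : T u v := by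
          by_contra hc; exact a1 (e1.2 hc)
        have b2 : T' u v := by
          by_contra hc; exact a2 (e2.2 hc)
        simp [a1, a2, b1, b2]
  rw [Finset.sum_congr rfl (fun u _ => h1 u), Finset.sum_sub_distrib, ← outdegree_eq_sum,
    ← outdegree_eq_sum, h v, sub_self]

/-- `R` is a score vector: it is realised by a tournament. -/
def IsScoreVector {n : ℕ} (R : Fin n → ℕ) : Prop :=
  ∃ T : Fin n → Fin n → Prop, IsTournament T ∧ ∀ u, outdegree T u = R u

/-- The number of pairs `{u, v}`, `u < v`, on which `T` and `T'` agree. -/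
noncomputable def agreements {n : ℕ} (T T' : Fin n → Fin n → Prop) : ℕ :=
  Nat.card {p : Fin n × Fin n // p.1 < p.2 ∧ (T p.1 p.2 ↔ T' p.1 p.2)}

/-- The total deviation `∑ v, |R v - (n-1)/2|` of `R` from the regular vector. -/
noncomputable def deviation {n : ℕ} (R : Fin n → ℕ) : ℝ :=
  ∑ v, |(R v : ℝ) - ((n : ℝ) - 1) / 2|

/-- The conjectured bound for the distance of `T` and `T'`: they are joined by a path of `G(R)`,
and their distance is at most `(n-1)²/4` for `n` odd and at most `n(n-2)/4` for `n` even. -/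
def PairBound {n : ℕ} {R : Fin n → ℕ} (T T' : Tournaments R) : Prop :=
  (interchangeGraph R).Reachable T T' ∧
    (Odd n → ((interchangeGraph R).dist T T' : ℝ) ≤ ((n : ℝ) - 1) ^ 2 / 4) ∧
    (Even n → ((interchangeGraph R).dist T T' : ℝ) ≤ (n : ℝ) * ((n : ℝ) - 2) / 4)

/-- The conjectured bound for the diameter of `G(R)`: any two tournaments with score vector `R`
are joined by a path, and their distance is at most `(n-1)²/4` for `n` odd and at most `n(n-2)/4`
for `n` even. -/
def DiameterBound {n : ℕ} (R : Fin n → ℕ) : Prop :=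
  ∀ T T' : Tournaments R, (interchangeGraph R).Reachable T T' ∧
    (Odd n → ((interchangeGraph R).dist T T' : ℝ) ≤ ((n : ℝ) - 1) ^ 2 / 4) ∧
    (Even n → ((interchangeGraph R).dist T T' : ℝ) ≤ (n : ℝ) * ((n : ℝ) - 2) / 4)

theorem dif_zero_iff {n : ℕ} {T T' : Fin n → Fin n → Prop} (hT : IsTournament T)
    (hT' : IsTournament T') {u v : Fin n} (h : u ≠ v) :
    dif T T' u v = 0 ↔ (T u v ↔ T' u v) := by
  have e1 := hT.2 u v h
  have e2 := hT'.2 u v h
  unfold dif
  by_cases a1 : T u v <;> by_cases a2 : T' u v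
  · have b1 : ¬ T v u := e1.1 a1
    have b2 : ¬ T' v u := e2.1 a2
    simp [a1, a2, b1, b2]
  · have b1 : ¬ T v u := e1.1 a1
    have b2 : T' v u := by
      by_contra hc; exact a2 (e2.2 hc)
    simp [a1, a2, b1, b2]
  · have b1 : T v u := by
      by_contra hc; exact a1 (e1.2 hc)
    have b2 : ¬ T' v u := e2.1 a2
    simp [a1, a2, b1, b2]
  · have b1 : T v u := by
      by_contra hc; exact a1 (e1.2 hc)
    have b2 : T' v u := by
      by_contra hc; exact a2 (e2.2 hc)
    simp [a1, a2, b1, b2]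

/-- The agreeing pairs, counted twice. -/
theorem two_agreements {n : ℕ} {T T' : Fin n → Fin n → Prop} (hT : IsTournament T)
    (hT' : IsTournament T') :
    2 * (agreements T T' : ℝ) =
      ∑ u : Fin n, ∑ v : Fin n, if u ≠ v ∧ (T u v ↔ T' u v) then (1 : ℝ) else 0 := by
  have h1 : (agreements T T' : ℝ) =
      ∑ u : Fin n, ∑ v : Fin n, if u < v ∧ (T u v ↔ T' u v) then (1 : ℝ) else 0 := by
    unfold agreements
    rw [Nat.card_eq_fintype_card, Fintype.card_subtype, ← Fintype.sum_prod_type'
      (f := fun u v : Fin n => if u < v ∧ (T u v ↔ T' u v) then (1 : ℝ) else 0),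
      Finset.sum_boole]
  have h2 : (∑ u : Fin n, ∑ v : Fin n, if u < v ∧ (T u v ↔ T' u v) then (1 : ℝ) else 0) =
      ∑ u : Fin n, ∑ v : Fin n, if v < u ∧ (T u v ↔ T' u v) then (1 : ℝ) else 0 := by
    rw [Finset.sum_comm]
    apply Finset.sum_congr rfl; intro u _
    apply Finset.sum_congr rfl; intro v _
    by_cases h : v < u
    · have e1 := hT.2 u v h.ne'
      have e2 := hT'.2 u v h.ne'
      have : (T v u ↔ T' v u) ↔ (T u v ↔ T' u v) := by tauto
      simp only [h, true_and, this]
    · simp [h]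
  rw [two_mul]
  conv_lhs => rw [h1]
  conv_lhs => arg 2; rw [h2]
  rw [← Finset.sum_add_distrib]
  apply Finset.sum_congr rfl; intro u _
  rw [← Finset.sum_add_distrib]
  apply Finset.sum_congr rfl; intro v _
  rcases lt_trichotomy u v with h | h | h
  · have h' : ¬ v < u := not_lt.2 h.le
    simp [h, h', h.ne]
  · subst h; simp
  · have h' : ¬ u < v := not_lt.2 h.le
    simp [h, h', h.ne']

theorem agreements_le_dif {n : ℕ} {T T' : Fin n → Fin n → Prop} (hT : IsTournament T)
    (hT' : IsTournament T') :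
    2 * (agreements T T' : ℝ) ≤ ∑ u, ∑ v, if dif T T' u v = 0 then (1 : ℝ) else 0 := by
  rw [two_agreements hT hT']
  apply Finset.sum_le_sum; intro u _
  apply Finset.sum_le_sum; intro v _
  by_cases h : u ≠ v ∧ (T u v ↔ T' u v)
  · rw [if_pos h, if_pos ((dif_zero_iff hT hT' h.1).2 h.2)]
  · rw [if_neg h]
    split_ifs <;> norm_num

/-- Two tournaments with score vector `R` agree on at least `∑ v, |R v - (n-1)/2|` pairs. -/
theorem deviation_le {n : ℕ} {R : Fin n → ℕ} (T T' : Tournaments R) :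
    deviation R ≤ agreements T.1 T'.1 := by
  obtain ⟨T, hT, hTR⟩ := T
  obtain ⟨T', hT', hTR'⟩ := T'
  have h2 := two_agreements hT hT'
  have key : ∀ u : Fin n, 2 * |(R u : ℝ) - ((n : ℝ) - 1) / 2| ≤
      ∑ v : Fin n, if u ≠ v ∧ (T u v ↔ T' u v) then (1 : ℝ) else 0 := by
    intro u
    have e1 : (R u : ℝ) = ∑ v, if T u v then (1 : ℝ) else 0 := by
      rw [← hTR u]
      have := outdegree_eq_sum T u
      have h : ((outdegree T u : ℤ) : ℝ) = ((∑ v, if T u v then 1 else 0 : ℤ) : ℝ) := by
        rw [this]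
      push_cast at h
      exact h
    have e2 : (R u : ℝ) = ∑ v, if T' u v then (1 : ℝ) else 0 := by
      rw [← hTR' u]
      have := outdegree_eq_sum T' u
      have h : ((outdegree T' u : ℤ) : ℝ) = ((∑ v, if T' u v then 1 else 0 : ℤ) : ℝ) := by
        rw [this]
      push_cast at h
      exact h
    have e3 : (n : ℝ) - 1 = ∑ v : Fin n, if u ≠ v then (1 : ℝ) else 0 := by
      have : ∑ v : Fin n, (if u ≠ v then (1 : ℝ) else 0) =
          ∑ v : Fin n, ((1 : ℝ) - if u = v then 1 else 0) := by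
        apply Finset.sum_congr rfl; intro v _
        by_cases h : u = v <;> simp [h]
      rw [this, Finset.sum_sub_distrib]
      simp
    have p1 : 2 * (R u : ℝ) - ((n : ℝ) - 1) ≤
        ∑ v : Fin n, if u ≠ v ∧ (T u v ↔ T' u v) then (1 : ℝ) else 0 := by
      have : 2 * (R u : ℝ) - ((n : ℝ) - 1) = ∑ v : Fin n,
          ((if T u v then (1 : ℝ) else 0) + (if T' u v then (1 : ℝ) else 0) -
            (if u ≠ v then (1 : ℝ) else 0)) := by
        rw [Finset.sum_sub_distrib, Finset.sum_add_distrib, ← e1, ← e2, ← e3]; ring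
      rw [this]
      apply Finset.sum_le_sum; intro v _
      by_cases huv : u = v
      · subst huv
        simp [hT.1 u, hT'.1 u]
      · by_cases a1 : T u v <;> by_cases a2 : T' u v <;> simp [huv, a1, a2]
    have p2 : ((n : ℝ) - 1) - 2 * (R u : ℝ) ≤
        ∑ v : Fin n, if u ≠ v ∧ (T u v ↔ T' u v) then (1 : ℝ) else 0 := by
      have : ((n : ℝ) - 1) - 2 * (R u : ℝ) = ∑ v : Fin n,
          ((if u ≠ v then (1 : ℝ) else 0) - ((if T u v then (1 : ℝ) else 0) +
            (if T' u v then (1 : ℝ) else 0))) := by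
        rw [Finset.sum_sub_distrib, Finset.sum_add_distrib, ← e1, ← e2, ← e3]; ring
      rw [this]
      apply Finset.sum_le_sum; intro v _
      by_cases huv : u = v
      · subst huv
        simp [hT.1 u, hT'.1 u]
      · by_cases a1 : T u v <;> by_cases a2 : T' u v <;> simp [huv, a1, a2]
    rcases abs_cases ((R u : ℝ) - ((n : ℝ) - 1) / 2) with ⟨c, _⟩ | ⟨c, _⟩ <;> rw [c] <;> linarith
  have h3 : 2 * deviation R ≤ 2 * (agreements T T' : ℝ) := by
    rw [h2]
    unfold deviation
    rw [Finset.mul_sum]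
    exact Finset.sum_le_sum (fun u _ => key u)
  linarith

theorem pair_bound {n : ℕ} {R : Fin n → ℕ} (T T' : Tournaments R)
    (h : 5 * (n : ℝ) ^ (15 / 8 : ℝ) ≤ (agreements T.1 T'.1 : ℝ)) : PairBound T T' := by
  obtain ⟨T, hT⟩ := T
  obtain ⟨T', hT'⟩ := T'
  rcases Nat.eq_zero_or_pos n with hn | hn
  · subst hn
    have : T = T' := by
      funext u
      exact u.elim0
    subst this
    refine ⟨SimpleGraph.Reachable.refl _, ?_, ?_⟩
    · intro h0
      exact absurd h0 (by decide)
    · intro _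
      rw [SimpleGraph.dist_self]
      simp
  · have : Nonempty (Fin n) := ⟨⟨0, hn⟩⟩
    obtain ⟨k, hst, hk⟩ := Pool.Agent.Helper83.TI2.main_bound2 (T := T) (T' := T') hT.1 hT'.1
      (row_zero hT.1 hT'.1 (fun u => (hT.2 u).trans (hT'.2 u).symm)) (agreements T T')
      (Nat.cast_nonneg _) (agreements_le_dif hT.1 hT'.1)
    obtain ⟨w, hw⟩ := walk_of_steps hst hT hT'
    rw [Fintype.card_fin] at hk
    have hn1 : (1 : ℝ) ≤ n := by exact_mod_cast hn
    have hn0 : (0 : ℝ) < n := by linarith
    have hd : ((interchangeGraph R).dist ⟨T, hT⟩ ⟨T', hT'⟩ : ℝ) ≤ (n : ℝ) * ((n : ℝ) - 2) / 4 := by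
      have h1 : ((interchangeGraph R).dist ⟨T, hT⟩ ⟨T', hT'⟩ : ℝ) ≤ k := by
        have := SimpleGraph.dist_le w
        rw [hw] at this
        exact_mod_cast this
      have h2 : 25 * (n : ℝ) ^ (7 / 4 : ℝ) ≤ (agreements T T' : ℝ) ^ 2 / (n : ℝ) ^ 2 := by
        rw [le_div_iff₀ (by positivity)]
        have e1 : (5 * (n : ℝ) ^ (15 / 8 : ℝ)) ^ 2 ≤ (agreements T T' : ℝ) ^ 2 :=
          pow_le_pow_left₀ (by positivity) h 2
        have e2 : (5 * (n : ℝ) ^ (15 / 8 : ℝ)) ^ 2 = 25 * (n : ℝ) ^ (7 / 4 : ℝ) * (n : ℝ) ^ 2 := by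
          rw [mul_pow, ← Real.rpow_natCast ((n : ℝ) ^ (15 / 8 : ℝ)) 2, ← Real.rpow_mul hn0.le,
            mul_assoc, ← Real.rpow_natCast (n : ℝ) 2, ← Real.rpow_add hn0]
          norm_num
        linarith
      have h3 : (n : ℝ) ≤ (n : ℝ) ^ (7 / 4 : ℝ) := by
        conv_lhs => rw [← Real.rpow_one (n : ℝ)]
        exact Real.rpow_le_rpow_of_exponent_le hn1 (by norm_num)
      nlinarith
    refine ⟨w.reachable, fun _ => ?_, fun _ => hd⟩
    nlinarith

/-- **The conjectured diameter bound holds exactly for almost all score vectors.**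
For every score vector `R` with `∑ v, |R v - (n-1)/2| ≥ 5 n^(15/8)` the diameter of `G(R)`
satisfies the conjectured bound; and for all large `n` at most a proportion `n^(-n/20)` of the
score vectors of length `n` violate the conjectured bound. -/
theorem result :
    (∀ (n : ℕ) (R : Fin n → ℕ), 5 * (n : ℝ) ^ (15 / 8 : ℝ) ≤ deviation R → DiameterBound R) ∧
    (∃ N : ℕ, ∀ n : ℕ, N ≤ n →
      (Nat.card {R : Fin n → ℕ // IsScoreVector R ∧ ¬ DiameterBound R} : ℝ) ≤
        (n : ℝ) ^ (-(n : ℝ) / 20) * (Nat.card {R : Fin n → ℕ // IsScoreVector R} : ℝ)) := by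
  have h2 : ∀ (n : ℕ) (R : Fin n → ℕ), 5 * (n : ℝ) ^ (15 / 8 : ℝ) ≤ deviation R →
      DiameterBound R := by
    intro n R hR T T'
    exact pair_bound T T' (hR.trans (deviation_le T T'))
  refine ⟨h2, ?_⟩
  obtain ⟨N, hN⟩ := Pool.Agent.Helper23.TI2.rare
  refine ⟨N, fun n hn => ?_⟩
  refine le_trans ?_ (hN n hn)
  have hfin : Finite {R : Fin n → ℕ // (∃ T, Pool.Agent.Helper23.TI2.IsTournament T ∧
      ∀ u, Pool.Agent.Helper23.TI2.outdegree T u = R u) ∧
      ∑ v, |(R v : ℝ) - ((n : ℝ) - 1) / 2| < 5 * (n : ℝ) ^ (15 / 8 : ℝ)} := by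
    have : Finite {R : Fin n → ℕ | ∀ u, R u ≤ n} := by
      have : {R : Fin n → ℕ | ∀ u, R u ≤ n} ⊆ Set.Icc 0 (fun _ => n) := by
        intro R hR
        exact ⟨fun _ => Nat.zero_le _, hR⟩
      exact (Set.finite_Icc _ _).subset this
    refine Finite.of_injective (β := {R : Fin n → ℕ | ∀ u, R u ≤ n}) (fun R => ⟨R.1, ?_⟩) ?_
    · obtain ⟨⟨T, hT, hR⟩, _⟩ := R.2
      intro u
      rw [← hR u]
      unfold Pool.Agent.Helper23.TI2.outdegree
      calc Nat.card {v // T u v} ≤ Nat.card (Fin n) :=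
            Nat.card_le_card_of_injective _ Subtype.val_injective
        _ = n := by simp
    · intro R R' h
      exact Subtype.ext (congrArg (fun x => x.1) h)
  refine Nat.cast_le.2 (Nat.card_le_card_of_injective (fun R => ⟨R.1, ?_, ?_⟩) ?_)
  · exact R.2.1
  · by_contra hc
    push Not at hc
    exact R.2.2 (h2 n R.1 hc)
  · intro R R' h
    exact Subtype.ext (congrArg (fun x => x.1) h)

end Pool.Agent.Results.MP_2d701a_co.AlmostAllScoreVectors
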