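import Pool.Agent.Helper40.TI.Final

/-!
# The diameter of tournament interchange graphs is at most `n²/4 + 14 n^(7/4)`

For every score vector `R` of length `n`, any two tournaments with score vector `R` are joined by
at most `n²/4 + 14 n^(7/4)` reversals of directed 3-cycles.
-/

namespace Pool.Agent.Results.MP_2d701a_co.AsymptoticDiameter

/-- `T` is a tournament on `n` labelled vertices: `T u v` says that the arc between `u` and `v`
goes from `u` to `v`. -/
def IsTournament {n : ℕ} (T : Fin n → Fin n → Prop) : Prop :=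
  (∀ u, ¬ T u u) ∧ ∀ u v, u ≠ v → (T u v ↔ ¬ T v u)

/-- The outdegree of the vertex `u`. -/
noncomputable def outdegree {n : ℕ} (T : Fin n → Fin n → Prop) (u : Fin n) : ℕ :=
  Nat.card {v // T u v}

/-- The set `T(R)` of all labelled tournaments with score vector `R`. -/
abbrev Tournaments {n : ℕ} (R : Fin n → ℕ) : Type :=
  {T : Fin n → Fin n → Prop // IsTournament T ∧ ∀ u, outdegree T u = R u}

/-- `T'` arises from `T` by reversing the three arcs `a → b`, `b → c`, `c → a` of one directed
3-cycle of `T`: pairs inside `{a, b, c}` are reversed, all other pairs are kept. -/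
def ReversesTriangle {n : ℕ} (T T' : Fin n → Fin n → Prop) : Prop :=
  ∃ a b c, T a b ∧ T b c ∧ T c a ∧ ∀ u v,
    ((u = a ∨ u = b ∨ u = c) ∧ (v = a ∨ v = b ∨ v = c) → (T' u v ↔ T v u)) ∧
    (¬ ((u = a ∨ u = b ∨ u = c) ∧ (v = a ∨ v = b ∨ v = c)) → (T' u v ↔ T u v))

theorem ReversesTriangle.symm {n : ℕ} {T T' : Fin n → Fin n → Prop}
    (h : ReversesTriangle T T') : ReversesTriangle T' T := by
  obtain ⟨a, b, c, hab, hbc, hca, h⟩ := h
  refine ⟨a, c, b, ?_, ?_, ?_, ?_⟩
  · exact ((h a c).1 ⟨by simp, by simp⟩).2 hca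
  · exact ((h c b).1 ⟨by simp, by simp⟩).2 hbc
  · exact ((h b a).1 ⟨by simp, by simp⟩).2 hab
  · intro u v
    constructor
    · rintro ⟨hu, hv⟩
      have hu' : u = a ∨ u = b ∨ u = c := by tauto
      have hv' : v = a ∨ v = b ∨ v = c := by tauto
      exact ((h v u).1 ⟨hv', hu'⟩).symm
    · intro hn
      have hn' : ¬ ((u = a ∨ u = b ∨ u = c) ∧ (v = a ∨ v = b ∨ v = c)) := by tauto
      exact ((h u v).2 hn').symm

theorem ReversesTriangle.irrefl {n : ℕ} {T : Fin n → Fin n → Prop} (hT : IsTournament T) :
    ¬ ReversesTriangle T T := by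
  rintro ⟨a, b, c, hab, hbc, hca, h⟩
  have h1 := ((h a b).1 ⟨by simp, by simp⟩).1 hab
  have hne : a ≠ b := by
    rintro rfl
    exact hT.1 _ hab
  exact (hT.2 a b hne).1 hab h1

/-- The interchange graph `G(R)`: its vertices are the tournaments with score vector `R`, and two
of them are adjacent when one arises from the other by reversing the arcs of a directed
3-cycle. -/
def interchangeGraph {n : ℕ} (R : Fin n → ℕ) : SimpleGraph (Tournaments R) where
  Adj T T' := ReversesTriangle T.1 T'.1
  symm := ⟨fun _ _ h => h.symm⟩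
  loopless := ⟨fun T => ReversesTriangle.irrefl T.2.1⟩

open Pool.Agent.Helper40.TI Classical

theorem outdegree_rev_aux {n : ℕ} {T : Fin n → Fin n → Prop} (hT : IsTournament T)
    {a b c : Fin n} (hab : T a b) (hbc : T b c) (hca : T c a) :
    outdegree (rev3 T a b c) a = outdegree T a := by
  have hT' : IsTour T := hT
  have nab : a ≠ b := hT'.ne hab
  have nbc : b ≠ c := hT'.ne hbc
  have nca : c ≠ a := hT'.ne hca
  have hba : ¬ T b a := hT'.not_symm hab
  have hac : ¬ T a c := hT'.not_symm hca
  unfold outdegree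
  apply Nat.card_congr
  refine (Equiv.swap b c).subtypeEquiv ?_
  intro v
  by_cases h1 : v = b
  · subst h1
    rw [Equiv.swap_apply_left]
    unfold rev3
    simp [hba, hac]
  · by_cases h2 : v = c
    · subst h2
      rw [Equiv.swap_apply_right]
      unfold rev3
      simp [hca, hab]
    · rw [Equiv.swap_apply_of_ne_of_ne h1 h2]
      unfold rev3
      by_cases h3 : v = a
      · subst h3; simp
      · simp [h1, h2, h3]

theorem rev3_rotate {n : ℕ} (T : Fin n → Fin n → Prop) (a b c : Fin n) :
    rev3 T a b c = rev3 T b c a := by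
  funext u v
  unfold rev3
  have h1 : (u = a ∨ u = b ∨ u = c) ↔ (u = b ∨ u = c ∨ u = a) := by tauto
  have h2 : (v = a ∨ v = b ∨ v = c) ↔ (v = b ∨ v = c ∨ v = a) := by tauto
  by_cases h : (u = a ∨ u = b ∨ u = c) ∧ (v = a ∨ v = b ∨ v = c)
  · rw [if_pos h, if_pos ⟨h1.1 h.1, h2.1 h.2⟩]
  · rw [if_neg h, if_neg (fun h' => h ⟨h1.2 h'.1, h2.2 h'.2⟩)]

theorem outdegree_rev {n : ℕ} {T : Fin n → Fin n → Prop} (hT : IsTournament T)
    {a b c : Fin n} (hab : T a b) (hbc : T b c) (hca : T c a) (u : Fin n) :
    outdegree (rev3 T a b c) u = outdegree T u := by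
  by_cases h1 : u = a
  · rw [h1]; exact outdegree_rev_aux hT hab hbc hca
  · by_cases h2 : u = b
    · rw [h2, rev3_rotate]; exact outdegree_rev_aux hT hbc hca hab
    · by_cases h3 : u = c
      · rw [h3, rev3_rotate, rev3_rotate]; exact outdegree_rev_aux hT hca hab hbc
      · unfold outdegree
        apply Nat.card_congr
        refine (Equiv.refl _).subtypeEquiv ?_
        intro v
        unfold rev3
        simp [h1, h2, h3]

theorem walk_of_steps {n : ℕ} {R : Fin n → ℕ} {k : ℕ} {T T' : Fin n → Fin n → Prop}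
    (h : Steps k T T') : ∀ (h1 : IsTournament T ∧ ∀ u, outdegree T u = R u)
      (h2 : IsTournament T' ∧ ∀ u, outdegree T' u = R u),
      ∃ w : (interchangeGraph R).Walk ⟨T, h1⟩ ⟨T', h2⟩, w.length = k := by
  induction h with
  | zero T =>
      intro h1 h2
      exact ⟨SimpleGraph.Walk.nil, rfl⟩
  | @succ k T T1 T2 hr hs ih =>
      intro h1 h2
      obtain ⟨a, b, c, hab, hbc, hca, rfl⟩ := hr
      have hT1 : IsTour T := h1.1
      have h3 : IsTournament (rev3 T a b c) ∧ ∀ u, outdegree (rev3 T a b c) u = R u :=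
        ⟨hT1.rev3 a b c, fun u => (outdegree_rev h1.1 hab hbc hca u).trans (h1.2 u)⟩
      obtain ⟨w, hw⟩ := ih h3 h2
      have hadj : (interchangeGraph R).Adj ⟨T, h1⟩ ⟨rev3 T a b c, h3⟩ := by
        refine ⟨a, b, c, hab, hbc, hca, ?_⟩
        intro u v
        constructor
        · intro h
          have : rev3 T a b c u v = T v u := by
            unfold rev3; rw [if_pos h]
          exact iff_of_eq this
        · intro h
          have : rev3 T a b c u v = T u v := by
            unfold rev3; rw [if_neg h]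
          exact iff_of_eq this
      refine ⟨SimpleGraph.Walk.cons hadj w, ?_⟩
      rw [SimpleGraph.Walk.length_cons, hw]

theorem outdegree_eq_sum {n : ℕ} (T : Fin n → Fin n → Prop) (u : Fin n) :
    (outdegree T u : ℤ) = ∑ v, if T u v then 1 else 0 := by
  unfold outdegree
  rw [Nat.card_eq_fintype_card, Fintype.card_subtype]
  simp

theorem row_zero {n : ℕ} {T T' : Fin n → Fin n → Prop} (hT : IsTournament T)
    (hT' : IsTournament T') (h : ∀ u, outdegree T u = outdegree T' u) (v : Fin n) :
    ∑ u, dif T T' v u = 0 := by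
  have h1 : ∀ u, dif T T' v u = (if T v u then 1 else 0) - (if T' v u then 1 else 0) := by
    intro u
    unfold dif
    by_cases huv : v = u
    · subst huv
      simp [hT.1 v, hT'.1 v]
    · have e1 := hT.2 v u huv
      have e2 := hT'.2 v u huv
      by_cases a1 : T v u <;> by_cases a2 : T' v u
      · have b1 : ¬ T u v := e1.1 a1
        have b2 : ¬ T' u v := e2.1 a2
        simp [a1, a2, b1, b2]
      · have b1 : ¬ T u v := e1.1 a1
        have b2 : T' u v := by
          by_contra hc; exact a2 (e2.2 hc)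
        simp [a1, a2, b1, b2]
      · have b1 : T u v := by
          by_contra hc; exact a1 (e1.2 hc)
        have b2 : ¬ T' u v := e2.1 a2
        simp [a1, a2, b1, b2]
      · have b1 : T u v := by
          by_contra hc; exact a1 (e1.2 hc)
        have b2 : T' u v := by
          by_contra hc; exact a2 (e2.2 hc)
        simp [a1, a2, b1, b2]
  rw [Finset.sum_congr rfl (fun u _ => h1 u), Finset.sum_sub_distrib, ← outdegree_eq_sum,
    ← outdegree_eq_sum, h v, sub_self]

/-- **Asymptotic upper bound for the diameter of `G(R)`.** For every `n` and every score vector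
`R` of length `n`, any two tournaments with score vector `R` are joined in `G(R)` by a path, and
their distance is at most `n²/4 + 14 n^(7/4)`. -/
theorem result : ∀ (n : ℕ) (R : Fin n → ℕ) (T T' : Tournaments R),
    (interchangeGraph R).Reachable T T' ∧
      ((interchangeGraph R).dist T T' : ℝ) ≤ (n : ℝ) ^ 2 / 4 + 14 * (n : ℝ) ^ (7 / 4 : ℝ) := by
  intro n R T T'
  obtain ⟨T, hT⟩ := T
  obtain ⟨T', hT'⟩ := T'
  rcases Nat.eq_zero_or_pos n with hn | hn
  · subst hn
    have : T = T' := by
      funext u
      exact u.elim0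
    subst this
    refine ⟨SimpleGraph.Reachable.refl _, ?_⟩
    rw [SimpleGraph.dist_self]
    simp
  · have : Nonempty (Fin n) := ⟨⟨0, hn⟩⟩
    obtain ⟨k, hst, hk⟩ := main_bound (T := T) (T' := T') hT.1 hT'.1
      (row_zero hT.1 hT'.1 (fun u => (hT.2 u).trans (hT'.2 u).symm))
    obtain ⟨w, hw⟩ := walk_of_steps hst hT hT'
    refine ⟨w.reachable, ?_⟩
    rw [Fintype.card_fin] at hk
    refine le_trans ?_ hk
    have := SimpleGraph.dist_le w
    rw [hw] at this
    exact_mod_cast this

end Pool.Agent.Results.MP_2d701a_co.AsymptoticDiameter
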