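import Pool.Agent.Helper40.TI.Frac

/-!
# The fractional interchange distance is at most `⌊(n-1)²/4⌋`

The conjectured bound for the diameter of tournament interchange graphs holds exactly for the
linear relaxation of the interchange distance.
-/

namespace Pool.Agent.Results.MP_2d701a_co.FractionalDistance

open Classical

/-- `T` is a tournament on `n` labelled vertices: `T u v` says that the arc between `u` and `v`
goes from `u` to `v`. -/
def IsTournament {n : ℕ} (T : Fin n → Fin n → Prop) : Prop :=
  (∀ u, ¬ T u u) ∧ ∀ u v, u ≠ v → (T u v ↔ ¬ T v u)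

/-- The outdegree of the vertex `u`. -/
noncomputable def outdegree {n : ℕ} (T : Fin n → Fin n → Prop) (u : Fin n) : ℕ :=
  Nat.card {v // T u v}

/-- Weights `X a b c ≥ 0` on the ordered triples of distinct vertices. The number `X a b c` is the
weight with which the reversal of the directed 3-cycle `a → b → c → a` is used: such a reversal
lowers the indicator of each of the arcs `(a,b)`, `(b,c)`, `(c,a)` by one and raises the
indicator of each of `(b,a)`, `(c,b)`, `(a,c)` by one. The condition says that altogether the
weighted reversals carry the indicator function of `T` to that of `T'`. A sequence of `k` ordinary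
reversals from `T` to `T'` is the special case of natural numbers `X a b c` with sum `k`. -/
def IsFractionalSequence {n : ℕ} (T T' : Fin n → Fin n → Prop)
    (X : Fin n → Fin n → Fin n → ℝ) : Prop :=
  (∀ a b c, 0 ≤ X a b c) ∧ (∀ a b c, X a b c ≠ 0 → a ≠ b ∧ b ≠ c ∧ c ≠ a) ∧
    ∀ u v, u ≠ v → (if T' u v then (1 : ℝ) else 0) = (if T u v then (1 : ℝ) else 0) +
      ∑ w, (X v u w + X w v u + X u w v) - ∑ w, (X u v w + X w u v + X v w u)

open Pool.Agent.Helper40.TI

theorem outdegree_eq_sum {n : ℕ} (T : Fin n → Fin n → Prop) (u : Fin n) :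
    (outdegree T u : ℤ) = ∑ v, if T u v then 1 else 0 := by
  unfold outdegree
  rw [Nat.card_eq_fintype_card, Fintype.card_subtype]
  simp

theorem dif_eq {n : ℕ} {T T' : Fin n → Fin n → Prop} (hT : IsTournament T)
    (hT' : IsTournament T') (v u : Fin n) :
    dif T T' v u = (if T v u then 1 else 0) - (if T' v u then 1 else 0) := by
  unfold dif
  by_cases huv : v = u
  · subst huv
    simp [hT.1 v, hT'.1 v]
  · have e1 := hT.2 v u huv
    have e2 := hT'.2 v u huv
    by_cases a1 : T v u <;> by_cases a2 : T' v u
    · have b1 : ¬ T u v := e1.1 a1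
      have b2 : ¬ T' u v := e2.1 a2
      simp [a1, a2, b1, b2]
    · have b1 : ¬ T u v := e1.1 a1
      have b2 : T' u v := by
        by_contra hc; exact a2 (e2.2 hc)
      simp [a1, a2, b1, b2]
    · have b1 : T u v := by
        by_contra hc; exact a1 (e1.2 hc)
      have b2 : ¬ T' u v := e2.1 a2
      simp [a1, a2, b1, b2]
    · have b1 : T u v := by
        by_contra hc; exact a1 (e1.2 hc)
      have b2 : T' u v := by
        by_contra hc; exact a2 (e2.2 hc)
      simp [a1, a2, b1, b2]

/-- **The conjectured bound holds exactly for the linear relaxation.** For every `n` and any two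
tournaments `T`, `T'` on `n` labelled vertices with the same score vector there is a fractional
sequence of reversals of directed 3-cycles from `T` to `T'` of total weight at most
`⌊(n-1)²/4⌋`, which is `(n-1)²/4` for odd `n` and `n(n-2)/4` for even `n`. -/
theorem result : ∀ (n : ℕ) (T T' : Fin n → Fin n → Prop), IsTournament T → IsTournament T' →
    (∀ u, outdegree T u = outdegree T' u) →
    ∃ X : Fin n → Fin n → Fin n → ℝ, IsFractionalSequence T T' X ∧
      ∑ a, ∑ b, ∑ c, X a b c ≤ (((n - 1) ^ 2 / 4 : ℕ) : ℝ) := by
  intro n T T' hT hT' hdeg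
  rcases Nat.eq_zero_or_pos n with hn | hn
  · subst hn
    refine ⟨fun _ _ _ => 0, ⟨fun _ _ _ => le_rfl, fun a => a.elim0, fun u => u.elim0⟩, ?_⟩
    simp
  · have : Nonempty (Fin n) := ⟨⟨0, hn⟩⟩
    have hn' : (0 : ℝ) < n := by exact_mod_cast hn
    set s : Fin n → Fin n → ℤ := dif T T' with hs
    have s1 : ∀ u v, s u v = -1 ∨ s u v = 0 ∨ s u v = 1 := by
      intro u v
      rw [hs]; unfold dif
      split_ifs <;> simp
    have sk : ∀ u v, s u v = - s v u := by
      intro u v
      rw [hs]; unfold dif; ring
    have hrow : ∀ v, ∑ u, s v u = 0 := by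
      intro v
      rw [hs, Finset.sum_congr rfl (fun u _ => dif_eq hT hT' v u), Finset.sum_sub_distrib,
        ← outdegree_eq_sum, ← outdegree_eq_sum, hdeg v, sub_self]
    have hfill := curl_fill s sk hrow (fun a b c => (cpos s a b c : ℝ) / (3 * Fintype.card (Fin n)))
      (fun a b c => rfl)
    have hpos : ∀ a b c, 0 ≤ cpos s a b c := by
      intro a b c
      unfold cpos
      split_ifs
      · exact le_max_right _ _
      · exact le_rfl
    refine ⟨fun a b c => (cpos s a b c : ℝ) / (3 * Fintype.card (Fin n)), ⟨?_, ?_, ?_⟩, ?_⟩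
    · intro a b c
      apply div_nonneg
      · exact_mod_cast hpos a b c
      · positivity
    · intro a b c h
      by_contra hne
      apply h
      have h0 : cpos s a b c = 0 := by
        unfold cpos
        rw [if_neg hne]
      simp [h0]
    · intro u v huv
      have h := hfill u v huv
      have h2 : (s u v : ℝ) = (if T u v then (1 : ℝ) else 0) - (if T' u v then (1 : ℝ) else 0) := by
        rw [hs, dif_eq hT hT' u v]
        push_cast
        rfl
      linarith
    · have h := sum_curl_le s s1 sk
      have h2 : ∑ a, ∑ b, ∑ c, (cpos s a b c : ℝ) / (3 * Fintype.card (Fin n)) =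
          ((∑ a, ∑ b, ∑ c, cpos s a b c : ℤ) : ℝ) / (3 * (n : ℝ)) := by
        rw [Int.cast_sum, Finset.sum_div]
        apply Finset.sum_congr rfl; intro a _
        rw [Int.cast_sum, Finset.sum_div]
        apply Finset.sum_congr rfl; intro b _
        rw [Int.cast_sum, Finset.sum_div]
        apply Finset.sum_congr rfl; intro c _
        rw [Fintype.card_fin]
      rw [h2, div_le_iff₀ (by positivity)]
      rw [Fintype.card_fin] at h
      have h3 : ((∑ a, ∑ b, ∑ c, cpos s a b c : ℤ) : ℝ) ≤
          ((3 * ((n : ℤ) * (((n - 1) ^ 2 / 4 : ℕ) : ℤ)) : ℤ) : ℝ) := Int.cast_le.2 h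
      refine h3.trans (le_of_eq ?_)
      rw [Int.cast_mul, Int.cast_mul, Int.cast_natCast, Int.cast_natCast, Int.cast_ofNat]
      ring

end Pool.Agent.Results.MP_2d701a_co.FractionalDistance
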