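import Pool.Agent.Helper30.SY.All

/-!
# Stability: the conjectured diameter bound holds with room away from the circular tournament

For every `ε > 0` there are `δ > 0` and `N` such that for `n ≥ N`, every score vector `R` of length
`n` and all `T, T'` in `T(R)`: either `T` and `T'` are joined by at most `(1/4 - δ) n^2` reversals, or
`T` is the circular tournament up to `ε n^2` arcs (after a relabelling) and `T'` is its reverse up to
`ε n^2` arcs.
-/

namespace Pool.Agent.Results.MP_2d701a_co.Stability

/-- `T` is a tournament on `n` labelled vertices: `T u v` says that the arc between `u` and `v`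
goes from `u` to `v`. -/
def IsTournament {n : ℕ} (T : Fin n → Fin n → Prop) : Prop :=
  (∀ u, ¬ T u u) ∧ ∀ u v, u ≠ v → (T u v ↔ ¬ T v u)

/-- The outdegree of the vertex `u`. -/
noncomputable def outdegree {n : ℕ} (T : Fin n → Fin n → Prop) (u : Fin n) : ℕ :=
  Nat.card {v // T u v}

/-- The set `T(R)` of all labelled tournaments with score vector `R`. -/
abbrev Tournaments {n : ℕ} (R : Fin n → ℕ) : Type :=
  {T : Fin n → Fin n → Prop // IsTournament T ∧ ∀ u, outdegree T u = R u}

/-- `T'` arises from `T` by reversing the three arcs `a → b`, `b → c`, `c → a` of one directed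
3-cycle of `T`: pairs inside `{a, b, c}` are reversed, all other pairs are kept. -/
def ReversesTriangle {n : ℕ} (T T' : Fin n → Fin n → Prop) : Prop :=
  ∃ a b c, T a b ∧ T b c ∧ T c a ∧ ∀ u v,
    ((u = a ∨ u = b ∨ u = c) ∧ (v = a ∨ v = b ∨ v = c) → (T' u v ↔ T v u)) ∧
    (¬ ((u = a ∨ u = b ∨ u = c) ∧ (v = a ∨ v = b ∨ v = c)) → (T' u v ↔ T u v))

theorem ReversesTriangle.symm {n : ℕ} {T T' : Fin n → Fin n → Prop}
    (h : ReversesTriangle T T') : ReversesTriangle T' T := by
  obtain ⟨a, b, c, hab, hbc, hca, h⟩ := h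
  refine ⟨a, c, b, ?_, ?_, ?_, ?_⟩
  · exact ((h a c).1 ⟨by simp, by simp⟩).2 hca
  · exact ((h c b).1 ⟨by simp, by simp⟩).2 hbc
  · exact ((h b a).1 ⟨by simp, by simp⟩).2 hab
  · intro u v
    constructor
    · rintro ⟨hu, hv⟩
      have hu' : u = a ∨ u = b ∨ u = c := by tauto
      have hv' : v = a ∨ v = b ∨ v = c := by tauto
      exact ((h v u).1 ⟨hv', hu'⟩).symm
    · intro hn
      have hn' : ¬ ((u = a ∨ u = b ∨ u = c) ∧ (v = a ∨ v = b ∨ v = c)) := by tauto
      exact ((h u v).2 hn').symm

theorem ReversesTriangle.irrefl {n : ℕ} {T : Fin n → Fin n → Prop} (hT : IsTournament T) :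
    ¬ ReversesTriangle T T := by
  rintro ⟨a, b, c, hab, hbc, hca, h⟩
  have h1 := ((h a b).1 ⟨by simp, by simp⟩).1 hab
  have hne : a ≠ b := by
    rintro rfl
    exact hT.1 _ hab
  exact (hT.2 a b hne).1 hab h1

/-- The interchange graph `G(R)`: its vertices are the tournaments with score vector `R`, and two
of them are adjacent when one arises from the other by reversing the arcs of a directed
3-cycle. -/
def interchangeGraph {n : ℕ} (R : Fin n → ℕ) : SimpleGraph (Tournaments R) where
  Adj T T' := ReversesTriangle T.1 T'.1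
  symm := ⟨fun _ _ h => h.symm⟩
  loopless := ⟨fun T => ReversesTriangle.irrefl T.2.1⟩

open Pool.Agent.Helper40.TI Classical

theorem outdegree_rev_aux {n : ℕ} {T : Fin n → Fin n → Prop} (hT : IsTournament T)
    {a b c : Fin n} (hab : T a b) (hbc : T b c) (hca : T c a) :
    outdegree (rev3 T a b c) a = outdegree T a := by
  have hT' : IsTour T := hT
  have nab : a ≠ b := hT'.ne hab
  have nbc : b ≠ c := hT'.ne hbc
  have nca : c ≠ a := hT'.ne hca
  have hba : ¬ T b a := hT'.not_symm hab
  have hac : ¬ T a c := hT'.not_symm hca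
  unfold outdegree
  apply Nat.card_congr
  refine (Equiv.swap b c).subtypeEquiv ?_
  intro v
  by_cases h1 : v = b
  · subst h1
    rw [Equiv.swap_apply_left]
    unfold rev3
    simp [hba, hac]
  · by_cases h2 : v = c
    · subst h2
      rw [Equiv.swap_apply_right]
      unfold rev3
      simp [hca, hab]
    · rw [Equiv.swap_apply_of_ne_of_ne h1 h2]
      unfold rev3
      by_cases h3 : v = a
      · subst h3; simp
      · simp [h1, h2, h3]

theorem rev3_rotate {n : ℕ} (T : Fin n → Fin n → Prop) (a b c : Fin n) :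
    rev3 T a b c = rev3 T b c a := by
  funext u v
  unfold rev3
  have h1 : (u = a ∨ u = b ∨ u = c) ↔ (u = b ∨ u = c ∨ u = a) := by tauto
  have h2 : (v = a ∨ v = b ∨ v = c) ↔ (v = b ∨ v = c ∨ v = a) := by tauto
  by_cases h : (u = a ∨ u = b ∨ u = c) ∧ (v = a ∨ v = b ∨ v = c)
  · rw [if_pos h, if_pos ⟨h1.1 h.1, h2.1 h.2⟩]
  · rw [if_neg h, if_neg (fun h' => h ⟨h1.2 h'.1, h2.2 h'.2⟩)]

theorem outdegree_rev {n : ℕ} {T : Fin n → Fin n → Prop} (hT : IsTournament T)
    {a b c : Fin n} (hab : T a b) (hbc : T b c) (hca : T c a) (u : Fin n) :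
    outdegree (rev3 T a b c) u = outdegree T u := by
  by_cases h1 : u = a
  · rw [h1]; exact outdegree_rev_aux hT hab hbc hca
  · by_cases h2 : u = b
    · rw [h2, rev3_rotate]; exact outdegree_rev_aux hT hbc hca hab
    · by_cases h3 : u = c
      · rw [h3, rev3_rotate, rev3_rotate]; exact outdegree_rev_aux hT hca hab hbc
      · unfold outdegree
        apply Nat.card_congr
        refine (Equiv.refl _).subtypeEquiv ?_
        intro v
        unfold rev3
        simp [h1, h2, h3]

theorem walk_of_steps {n : ℕ} {R : Fin n → ℕ} {k : ℕ} {T T' : Fin n → Fin n → Prop}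
    (h : Steps k T T') : ∀ (h1 : IsTournament T ∧ ∀ u, outdegree T u = R u)
      (h2 : IsTournament T' ∧ ∀ u, outdegree T' u = R u),
      ∃ w : (interchangeGraph R).Walk ⟨T, h1⟩ ⟨T', h2⟩, w.length = k := by
  induction h with
  | zero T =>
      intro h1 h2
      exact ⟨SimpleGraph.Walk.nil, rfl⟩
  | @succ k T T1 T2 hr hs ih =>
      intro h1 h2
      obtain ⟨a, b, c, hab, hbc, hca, rfl⟩ := hr
      have hT1 : IsTour T := h1.1
      have h3 : IsTournament (rev3 T a b c) ∧ ∀ u, outdegree (rev3 T a b c) u = R u :=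
        ⟨hT1.rev3 a b c, fun u => (outdegree_rev h1.1 hab hbc hca u).trans (h1.2 u)⟩
      obtain ⟨w, hw⟩ := ih h3 h2
      have hadj : (interchangeGraph R).Adj ⟨T, h1⟩ ⟨rev3 T a b c, h3⟩ := by
        refine ⟨a, b, c, hab, hbc, hca, ?_⟩
        intro u v
        constructor
        · intro h
          have : rev3 T a b c u v = T v u := by
            unfold rev3; rw [if_pos h]
          exact iff_of_eq this
        · intro h
          have : rev3 T a b c u v = T u v := by
            unfold rev3; rw [if_neg h]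
          exact iff_of_eq this
      refine ⟨SimpleGraph.Walk.cons hadj w, ?_⟩
      rw [SimpleGraph.Walk.length_cons, hw]

theorem outdegree_eq_sum {n : ℕ} (T : Fin n → Fin n → Prop) (u : Fin n) :
    (outdegree T u : ℤ) = ∑ v, if T u v then 1 else 0 := by
  unfold outdegree
  rw [Nat.card_eq_fintype_card, Fintype.card_subtype]
  simp

theorem row_zero {n : ℕ} {T T' : Fin n → Fin n → Prop} (hT : IsTournament T)
    (hT' : IsTournament T') (h : ∀ u, outdegree T u = outdegree T' u) (v : Fin n) :
    ∑ u, dif T T' v u = 0 := by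
  have h1 : ∀ u, dif T T' v u = (if T v u then 1 else 0) - (if T' v u then 1 else 0) := by
    intro u
    unfold dif
    by_cases huv : v = u
    · subst huv
      simp [hT.1 v, hT'.1 v]
    · have e1 := hT.2 v u huv
      have e2 := hT'.2 v u huv
      by_cases a1 : T v u <;> by_cases a2 : T' v u
      · have b1 : ¬ T u v := e1.1 a1
        have b2 : ¬ T' u v := e2.1 a2
        simp [a1, a2, b1, b2]
      · have b1 : ¬ T u v := e1.1 a1
        have b2 : T' u v := by
          by_contra hc; exact a2 (e2.2 hc)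
        simp [a1, a2, b1, b2]
      · have b1 : T u v := by
          by_contra hc; exact a1 (e1.2 hc)
        have b2 : ¬ T' u v := e2.1 a2
        simp [a1, a2, b1, b2]
      · have b1 : T u v := by
          by_contra hc; exact a1 (e1.2 hc)
        have b2 : T' u v := by
          by_contra hc; exact a2 (e2.2 hc)
        simp [a1, a2, b1, b2]
  rw [Finset.sum_congr rfl (fun u _ => h1 u), Finset.sum_sub_distrib, ← outdegree_eq_sum,
    ← outdegree_eq_sum, h v, sub_self]

/-- The arc from position `i` to position `j` in the circular tournament: `j - i` is between `1` and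
`(n-1)/2` modulo `n`. -/
def Circular {n : ℕ} (i j : Fin n) : Prop :=
  0 < (n + j.val - i.val) % n ∧ 2 * ((n + j.val - i.val) % n) < n

theorem circ_of_mod {n : ℕ} (i j : Fin n) (hij : i ≠ j) :
    Circular i j ∨ Circular j i ∨ 2 * ((n + j.val - i.val) % n) = n := by
  have hi := i.2
  have hj := j.2
  have hne : i.val ≠ j.val := fun h => hij (Fin.ext h)
  unfold Circular
  rcases Nat.lt_or_gt_of_ne hne with h | h
  · have e1 : (n + j.val - i.val) % n = j.val - i.val := by
      have : n + j.val - i.val = (j.val - i.val) + n := by omega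
      rw [this, Nat.add_mod_right, Nat.mod_eq_of_lt (by omega)]
    have e2 : (n + i.val - j.val) % n = n + i.val - j.val := Nat.mod_eq_of_lt (by omega)
    rw [e1, e2]
    omega
  · have e1 : (n + i.val - j.val) % n = i.val - j.val := by
      have : n + i.val - j.val = (i.val - j.val) + n := by omega
      rw [this, Nat.add_mod_right, Nat.mod_eq_of_lt (by omega)]
    have e2 : (n + j.val - i.val) % n = n + j.val - i.val := Nat.mod_eq_of_lt (by omega)
    rw [e1, e2]
    omega

theorem circ_asymm {n : ℕ} (i j : Fin n) (h : Circular i j) : ¬ Circular j i := by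
  have hi := i.2
  have hj := j.2
  unfold Circular at *
  intro h'
  rcases lt_trichotomy i.val j.val with hlt | heq | hgt
  · have e1 : (n + j.val - i.val) % n = j.val - i.val := by
      have : n + j.val - i.val = (j.val - i.val) + n := by omega
      rw [this, Nat.add_mod_right, Nat.mod_eq_of_lt (by omega)]
    have e2 : (n + i.val - j.val) % n = n + i.val - j.val := Nat.mod_eq_of_lt (by omega)
    rw [e1] at h
    rw [e2] at h'
    omega
  · rw [heq] at h
    have : (n + j.val - j.val) % n = 0 := by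
      rw [Nat.add_sub_cancel, Nat.mod_self]
    omega
  · have e1 : (n + i.val - j.val) % n = i.val - j.val := by
      have : n + i.val - j.val = (i.val - j.val) + n := by omega
      rw [this, Nat.add_mod_right, Nat.mod_eq_of_lt (by omega)]
    have e2 : (n + j.val - i.val) % n = n + j.val - i.val := Nat.mod_eq_of_lt (by omega)
    rw [e1] at h'
    rw [e2] at h
    omega

theorem antipodal_unique {n : ℕ} (i j k : Fin n) (h1 : 2 * ((n + j.val - i.val) % n) = n)
    (h2 : 2 * ((n + k.val - i.val) % n) = n) : j = k := by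
  have hi := i.2
  have hj := j.2
  have hk := k.2
  have hval : ∀ m : Fin n, 2 * ((n + m.val - i.val) % n) = n →
      (n + m.val - i.val) % n = if i.val ≤ m.val then m.val - i.val else n + m.val - i.val := by
    intro m _
    have hm := m.2
    by_cases h : i.val ≤ m.val
    · rw [if_pos h]
      have : n + m.val - i.val = (m.val - i.val) + n := by omega
      rw [this, Nat.add_mod_right, Nat.mod_eq_of_lt (by omega)]
    · rw [if_neg h, Nat.mod_eq_of_lt (by omega)]
  have a1 := hval j h1
  have a2 := hval k h2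
  apply Fin.ext
  rw [a1] at h1
  rw [a2] at h2
  split_ifs at h1 h2 <;> omega

theorem dif_eq_one {n : ℕ} {T T' : Fin n → Fin n → Prop} (hT : IsTournament T) (u v : Fin n) :
    dif T T' u v = 1 ↔ T u v ∧ T' v u := by
  unfold dif
  by_cases h : T u v ∧ T' v u
  · have hne : u ≠ v := by
      rintro rfl
      exact hT.1 _ h.1
    have h2 : ¬ T v u := (hT.2 u v hne).1 h.1
    simp [h, h2]
  · by_cases h3 : T v u ∧ T' u v
    · rw [if_neg h, if_pos h3]
      constructor
      · intro h4; norm_num at h4
      · intro h4; exact absurd h4 h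
    · rw [if_neg h, if_neg h3]
      constructor
      · intro h4; norm_num at h4
      · intro h4; exact absurd h4 h

/-- **Stability theorem for the interchange distance.** -/
theorem result : ∀ ε : ℝ, 0 < ε → ∃ (δ : ℝ) (N : ℕ), 0 < δ ∧ ∀ n : ℕ, N ≤ n →
    ∀ (R : Fin n → ℕ) (T T' : Tournaments R), (interchangeGraph R).Reachable T T' ∧
      (((interchangeGraph R).dist T T' : ℝ) ≤ (1 / 4 - δ) * (n : ℝ) ^ 2 ∨
        ∃ π : Equiv.Perm (Fin n), (Nat.card {p : Fin n × Fin n // p.1 ≠ p.2 ∧
          ¬ ((T.1 p.1 p.2 ↔ Circular (π p.1) (π p.2)) ∧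
            (T'.1 p.2 p.1 ↔ Circular (π p.1) (π p.2)))} : ℝ) ≤ ε * (n : ℝ) ^ 2) := by
  intro ε hε
  obtain ⟨ξ, n1, hξ, hstr⟩ := Pool.Agent.Helper30.SY.strp (ε / 4) (by positivity)
  obtain ⟨δ, n2, hδ, hstp⟩ := Pool.Agent.Helper30.SY.stp ξ hξ
  refine ⟨δ, max (max n1 n2) (⌈2 / ε⌉₊ + 1), hδ, ?_⟩
  intro n hn R T T'
  obtain ⟨T, hT⟩ := T
  obtain ⟨T', hT'⟩ := T'
  have hn1 : n1 ≤ n := le_trans (le_trans (le_max_left _ _) (le_max_left _ _)) hn
  have hn2 : n2 ≤ n := le_trans (le_trans (le_max_right _ _) (le_max_left _ _)) hn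
  have hn3 : 2 / ε ≤ (n : ℝ) := by
    have h1 : ⌈2 / ε⌉₊ + 1 ≤ n := le_trans (le_max_right _ _) hn
    have h2 : (2 / ε : ℝ) ≤ (⌈2 / ε⌉₊ : ℝ) := Nat.le_ceil _
    have h3 : ((⌈2 / ε⌉₊ + 1 : ℕ) : ℝ) ≤ n := by exact_mod_cast h1
    push_cast at h3
    linarith
  have hrow := row_zero hT.1 hT'.1 (fun u => (hT.2 u).trans (hT'.2 u).symm)
  have hmain := hstp n hn2 T T' hT.1 hT'.1 hrow
  have hreach : (interchangeGraph R).Reachable ⟨T, hT⟩ ⟨T', hT'⟩ := by
    rcases hmain with ⟨k, hst, _⟩ | ⟨k, hst, _⟩
    · obtain ⟨w, _⟩ := walk_of_steps hst hT hT'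
      exact w.reachable
    · obtain ⟨w, _⟩ := walk_of_steps hst hT hT'
      exact w.reachable
  refine ⟨hreach, ?_⟩
  rcases hmain with ⟨k, hst, hk⟩ | ⟨k, hst, hmis, hW⟩
  · left
    obtain ⟨w, hw⟩ := walk_of_steps hst hT hT'
    have := SimpleGraph.dist_le w
    rw [hw] at this
    have h2 : ((interchangeGraph R).dist ⟨T, hT⟩ ⟨T', hT'⟩ : ℝ) ≤ k := by exact_mod_cast this
    linarith
  · right
    have hc : Pool.Agent.Helper30.SY.Circ (dif T T') := by
      refine ⟨?_, ?_, hrow⟩
      · intro u v
        unfold dif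
        split_ifs <;> simp
      · intro u v
        unfold dif
        ring
    obtain ⟨π, hπ⟩ := hstr n hn1 (dif T T') hc hmis hW
    refine ⟨π, ?_⟩
    set D : Finset (Fin n × Fin n) := Finset.univ.filter fun p => p.1 ≠ p.2 ∧
      ¬ (dif T T' p.1 p.2 = 1 ↔ Pool.Agent.Helper30.SY.circ (π p.1) (π p.2)) with hD
    set E : Finset (Fin n × Fin n) := Finset.univ.filter fun p =>
      2 * ((n + (π p.2).val - (π p.1).val) % n) = n with hE
    have hEc : E.card ≤ n := by
      have h1 : E.card ≤ (Finset.univ : Finset (Fin n)).card := by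
        apply Finset.card_le_card_of_injOn (fun p => p.1) (fun p _ => Finset.mem_coe.2 (Finset.mem_univ _))
        intro p hp q hq hpq
        have hp' := (Finset.mem_filter.1 (Finset.mem_coe.1 hp)).2
        have hq' := (Finset.mem_filter.1 (Finset.mem_coe.1 hq)).2
        have hpq' : p.1 = q.1 := hpq
        rw [← hpq'] at hq'
        have h3 := antipodal_unique (π p.1) (π p.2) (π q.2) hp' hq'
        exact Prod.ext hpq' (π.injective h3)
      rwa [Finset.card_univ, Fintype.card_fin] at h1
    have hcard : Nat.card {p : Fin n × Fin n // p.1 ≠ p.2 ∧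
        ¬ ((T p.1 p.2 ↔ Circular (π p.1) (π p.2)) ∧
          (T' p.2 p.1 ↔ Circular (π p.1) (π p.2)))} ≤ D.card + D.card + E.card := by
      rw [Nat.card_eq_fintype_card, Fintype.card_subtype]
      have hswap : (D.image Prod.swap).card ≤ D.card := Finset.card_image_le
      refine le_trans (Finset.card_le_card (t := (D ∪ D.image Prod.swap) ∪ E) ?_) ?_
      · intro p hp
        obtain ⟨hne, hnot⟩ := (Finset.mem_filter.1 hp).2
        by_contra hcon
        simp only [Finset.mem_union, not_or] at hcon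
        obtain ⟨⟨h1, h2⟩, h3⟩ := hcon
        have a1 : dif T T' p.1 p.2 = 1 ↔ Circular (π p.1) (π p.2) := by
          by_contra h
          exact h1 (Finset.mem_filter.2 ⟨Finset.mem_univ _, hne, h⟩)
        have a2 : dif T T' p.2 p.1 = 1 ↔ Circular (π p.2) (π p.1) := by
          by_contra h
          apply h2
          rw [Finset.mem_image]
          exact ⟨(p.2, p.1), Finset.mem_filter.2 ⟨Finset.mem_univ _, hne.symm, h⟩, rfl⟩
        have a3 : ¬ 2 * ((n + (π p.2).val - (π p.1).val) % n) = n := by
          intro h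
          exact h3 (Finset.mem_filter.2 ⟨Finset.mem_univ _, h⟩)
        rw [dif_eq_one hT.1] at a1 a2
        have hπne : π p.1 ≠ π p.2 := fun h => hne (π.injective h)
        have t1 := hT.1.2 p.1 p.2 hne
        have t2 := hT'.1.2 p.1 p.2 hne
        rcases circ_of_mod (π p.1) (π p.2) hπne with c | c | c
        · have b := a1.2 c
          exact hnot ⟨⟨fun _ => c, fun _ => b.1⟩, ⟨fun _ => c, fun _ => b.2⟩⟩
        · have b := a2.2 c
          have c' := circ_asymm _ _ c
          have n1 : ¬ T p.1 p.2 := fun h => t1.1 h b.1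
          have n2 : ¬ T' p.2 p.1 := fun h => t2.1 b.2 h
          exact hnot ⟨⟨fun h => absurd h n1, fun h => absurd h c'⟩,
            ⟨fun h => absurd h n2, fun h => absurd h c'⟩⟩
        · exact a3 c
      · refine le_trans (Finset.card_union_le _ _) ?_
        have := Finset.card_union_le D (D.image Prod.swap)
        omega
    have h1 : (Nat.card {p : Fin n × Fin n // p.1 ≠ p.2 ∧
        ¬ ((T p.1 p.2 ↔ Circular (π p.1) (π p.2)) ∧
          (T' p.2 p.1 ↔ Circular (π p.1) (π p.2)))} : ℝ) ≤ D.card + D.card + E.card := by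
      exact_mod_cast hcard
    have h2 : (E.card : ℝ) ≤ n := by exact_mod_cast hEc
    have h3 : (D.card : ℝ) ≤ ε / 4 * (n : ℝ) ^ 2 := hπ
    have hn0 : (0 : ℝ) < n := lt_of_lt_of_le (by positivity) hn3
    have h4 : (n : ℝ) ≤ ε / 2 * (n : ℝ) ^ 2 := by
      have : 2 ≤ ε * n := by
        rw [div_le_iff₀ hε] at hn3
        linarith
      nlinarith
    show (Nat.card {p : Fin n × Fin n // p.1 ≠ p.2 ∧
        ¬ ((T p.1 p.2 ↔ Circular (π p.1) (π p.2)) ∧
          (T' p.2 p.1 ↔ Circular (π p.1) (π p.2)))} : ℝ) ≤ ε * (n : ℝ) ^ 2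
    linarith

end Pool.Agent.Results.MP_2d701a_co.Stability
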